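import Pool.Agent.H936R2.Affine
import Pool.Agent.H936R2.Crit2

/-!
Dynamical Mordell-Lang for `(x, y, z) ↦ (x^2 + y, y^2 + z, z^2 + x)` at every point which is integral
at some place above `2`, and more generally at every point whose orbit is `p`-integral and
eventually unramified modulo some place above some prime `p`.
-/

set_option autoImplicit false

namespace Pool.Agent.Results.MP_e9abfe_ag.TwoAdicIntegral

open MvPolynomial Pool.Agent.H936R2

/-- The map with integer coefficients. -/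
noncomputable def Fz : Fin 3 → MvPolynomial (Fin 3) ℤ :=
  ![X 0 ^ 2 + X 1, X 1 ^ 2 + X 2, X 2 ^ 2 + X 0]

lemma pt_Fz (O : Type) [CommRing O] :
    pt (overRing O Fz) = fun v : Fin 3 → O => ![v 0 ^ 2 + v 1, v 1 ^ 2 + v 2, v 2 ^ 2 + v 0] := by
  funext v i
  fin_cases i <;> simp [pt, overRing, Fz]

lemma jac_Fz (O : Type) [CommRing O] (v : Fin 3 → O) :
    (jac (overRing O Fz) v).det = 8 * v 0 * v 1 * v 2 + 1 := by
  have h : jac (overRing O Fz) v = !![2 * v 0, 1, 0; 0, 2 * v 1, 1; 1, 0, 2 * v 2] := by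
    ext i j
    fin_cases i <;> fin_cases j <;>
      simp [jac, overRing, Fz, Derivation.leibniz_pow]
  rw [h, Matrix.det_fin_three]
  simp
  ring

/-- Integral elements have norm at most one. -/
lemma norm_le_one_of_isIntegral {K : Type} [NormedField K] [IsUltrametricDist K] (x : K)
    (hx : IsIntegral ℤ x) : ‖x‖ ≤ 1 := by
  obtain ⟨P, hP, hPx⟩ := hx
  by_contra hlt
  rw [not_le] at hlt
  have h1 : Polynomial.eval₂ (algebraMap ℤ K) x P =
      ∑ i ∈ Finset.range (P.natDegree + 1), algebraMap ℤ K (P.coeff i) * x ^ i :=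
    Polynomial.eval₂_eq_sum_range _ _
  rw [h1, Finset.sum_range_succ, hP.coeff_natDegree, map_one, one_mul] at hPx
  have h2 : x ^ P.natDegree = - ∑ i ∈ Finset.range P.natDegree, algebraMap ℤ K (P.coeff i) * x ^ i := by
    linear_combination hPx
  have h3 : ‖x ^ P.natDegree‖ = ‖∑ i ∈ Finset.range P.natDegree, algebraMap ℤ K (P.coeff i) * x ^ i‖ := by
    rw [h2, norm_neg]
  rcases Nat.eq_zero_or_pos P.natDegree with h0 | h0
  · rw [h0] at h3
    simp at h3
  · obtain ⟨i, hi, hle⟩ := IsUltrametricDist.exists_norm_finsetSum_le_of_nonempty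
      (t := Finset.range P.natDegree) ⟨0, Finset.mem_range.2 h0⟩
      (fun i => algebraMap ℤ K (P.coeff i) * x ^ i)
    rw [Finset.mem_range] at hi
    have h4 : ‖algebraMap ℤ K (P.coeff i) * x ^ i‖ ≤ ‖x‖ ^ i := by
      rw [norm_mul, norm_pow]
      calc _ ≤ 1 * ‖x‖ ^ i := by
            apply mul_le_mul_of_nonneg_right _ (by positivity)
            exact norm_intCast_le _
        _ = ‖x‖ ^ i := one_mul _
    have h5 : ‖x‖ ^ i < ‖x‖ ^ P.natDegree := pow_lt_pow_right₀ hlt hi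
    rw [norm_pow] at h3
    linarith

theorem result (α : Fin 3 → ℂ)
    (hα : (∀ i, IsIntegral ℤ (α i)) ∨ (∃ σ : Subfield.closure (Set.range α) →+* PadicAlgCl 2,
        ∀ i, ‖σ ⟨α i, Subfield.subset_closure ⟨i, rfl⟩⟩‖ ≤ 1) ∨
      ∃ (p : ℕ) (_ : Fact p.Prime) (σ : Subfield.closure (Set.range α) →+* PadicAlgCl p) (M : ℕ),
        (∀ i, ‖σ ⟨α i, Subfield.subset_closure ⟨i, rfl⟩⟩‖ ≤ 1) ∧
        ∀ n, M ≤ n → ∀ w : Fin 3 → Subfield.closure (Set.range α),
          (∀ i, (w i : ℂ) = (fun v : Fin 3 → ℂ => ![v 0 ^ 2 + v 1, v 1 ^ 2 + v 2, v 2 ^ 2 + v 0])^[n] α i) →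
          ‖σ (8 * w 0 * w 1 * w 2 + 1)‖ = 1)
    (S : Set (MvPolynomial (Fin 3) ℂ)) :
    ∃ F : Finset (ℕ × ℕ),
      {n : ℕ | ∀ f ∈ S, eval
        ((fun v : Fin 3 → ℂ => ![v 0 ^ 2 + v 1, v 1 ^ 2 + v 2, v 2 ^ 2 + v 0])^[n] α) f = 0}
        = {m : ℕ | ∃ q ∈ F, ∃ j : ℕ, m = q.1 + q.2 * j} := by
  have hmem : ∀ i, α i ∈ Subfield.closure (Set.range α) := fun i =>
    Subfield.subset_closure ⟨i, rfl⟩
  have key : ∀ (p : ℕ) (_ : Fact p.Prime) (σ : Subfield.closure (Set.range α) →+* PadicAlgCl p)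
      (M : ℕ), (∀ i, ‖σ ⟨α i, hmem i⟩‖ ≤ 1) →
      (∀ n, M ≤ n → ‖σ (jac (overRing (Subfield.closure (Set.range α)) Fz)
        ((pt (overRing (Subfield.closure (Set.range α)) Fz))^[n] fun i => ⟨α i, hmem i⟩)).det‖ = 1) →
      ∃ F : Finset (ℕ × ℕ),
      {n : ℕ | ∀ f ∈ S, eval
        ((fun v : Fin 3 → ℂ => ![v 0 ^ 2 + v 1, v 1 ^ 2 + v 2, v 2 ^ 2 + v 0])^[n] α) f = 0}
        = {m : ℕ | ∃ q ∈ F, ∃ j : ℕ, m = q.1 + q.2 * j} := by
    intro p hp σ M h1 h2
    obtain ⟨T, hT⟩ := return_set_affine p Fz α _ hmem σ h1 M h2 S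
    rw [pt_Fz] at hT
    refine ⟨T.image fun q => (q.2, q.1), ?_⟩
    rw [hT]
    ext m
    simp only [Set.mem_ofPred_eq, Finset.mem_image]
    constructor
    · rintro ⟨q, hq, j, rfl⟩
      exact ⟨_, ⟨q, hq, rfl⟩, j, by ring⟩
    · rintro ⟨_, ⟨q, hq, rfl⟩, j, rfl⟩
      exact ⟨q, hq, j, by ring⟩
  have hα' : (∃ σ : Subfield.closure (Set.range α) →+* PadicAlgCl 2,
        ∀ i, ‖σ ⟨α i, Subfield.subset_closure ⟨i, rfl⟩⟩‖ ≤ 1) ∨
      ∃ (p : ℕ) (_ : Fact p.Prime) (σ : Subfield.closure (Set.range α) →+* PadicAlgCl p) (M : ℕ),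
        (∀ i, ‖σ ⟨α i, Subfield.subset_closure ⟨i, rfl⟩⟩‖ ≤ 1) ∧
        ∀ n, M ≤ n → ∀ w : Fin 3 → Subfield.closure (Set.range α),
          (∀ i, (w i : ℂ) = (fun v : Fin 3 → ℂ => ![v 0 ^ 2 + v 1, v 1 ^ 2 + v 2, v 2 ^ 2 + v 0])^[n] α i) →
          ‖σ (8 * w 0 * w 1 * w 2 + 1)‖ = 1 := by
    rcases hα with h | h
    · left
      have hp : Fact (Nat.Prime 2) := ⟨Nat.prime_two⟩
      obtain ⟨τ⟩ := exists_embedding 2
      refine ⟨τ.comp (Subfield.closure (Set.range α)).subtype, fun i => ?_⟩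
      apply norm_le_one_of_isIntegral
      exact (h i).map (τ.toIntAlgHom)
    · exact h
  rcases hα' with ⟨σ, hσ⟩ | ⟨p, hp, σ, M, h1, h2⟩
  · have hp : Fact (Nat.Prime 2) := ⟨Nat.prime_two⟩
    refine key 2 hp σ 0 hσ fun n _ => ?_
    -- integrality of the orbit
    have horb : ∀ n i, ‖σ ((pt (overRing (Subfield.closure (Set.range α)) Fz))^[n]
        (fun i => ⟨α i, hmem i⟩) i)‖ ≤ 1 := by
      intro n
      induction n with
      | zero => exact hσ
      | succ n ih =>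
        intro i
        rw [Function.iterate_succ_apply', pt_Fz]
        rw [pt_Fz] at ih
        have hstep : ∀ a b, ‖σ a‖ ≤ 1 → ‖σ b‖ ≤ 1 → ‖σ (a ^ 2 + b)‖ ≤ 1 := by
          intro a b ha hb
          rw [map_add, map_pow]
          refine (IsUltrametricDist.norm_add_le_max _ _).trans (max_le ?_ hb)
          rw [norm_pow]
          exact pow_le_one₀ (norm_nonneg _) ha
        fin_cases i
        · exact hstep _ _ (ih 0) (ih 1)
        · exact hstep _ _ (ih 1) (ih 2)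
        · exact hstep _ _ (ih 2) (ih 0)
    rw [jac_Fz]
    set v := (pt (overRing (Subfield.closure (Set.range α)) Fz))^[n] (fun i => ⟨α i, hmem i⟩) with hv
    have h8 : ‖σ (8 * v 0 * v 1 * v 2)‖ < 1 := by
      rw [map_mul, map_mul, map_mul, norm_mul, norm_mul, norm_mul]
      have e1 : ‖σ 8‖ < 1 := by
        have : σ 8 = ((2 : ℕ) : PadicAlgCl 2) ^ 3 := by
          rw [map_ofNat]
          norm_num
        rw [this, norm_pow]
        exact pow_lt_one₀ (norm_nonneg _) (norm_p_lt_one 2) (by norm_num)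
      have e2 := horb n 0
      have e3 := horb n 1
      have e4 := horb n 2
      rw [← hv] at e2 e3 e4
      calc ‖σ 8‖ * ‖σ (v 0)‖ * ‖σ (v 1)‖ * ‖σ (v 2)‖ ≤ ‖σ 8‖ * 1 * 1 * 1 := by gcongr
        _ < 1 := by simpa using e1
    have hne : ‖σ (8 * v 0 * v 1 * v 2)‖ ≠ ‖(1 : PadicAlgCl 2)‖ := by
      rw [norm_one]
      exact h8.ne
    rw [map_add, map_one, IsUltrametricDist.norm_add_eq_max_of_norm_ne_norm hne, norm_one]
    exact max_eq_right h8.le
  · refine key p hp σ M h1 fun n hn => ?_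
    rw [jac_Fz]
    apply h2 n hn
    intro i
    have h3 := pt_map (algebraMap (Subfield.closure (Set.range α)) ℂ)
      (overRing (Subfield.closure (Set.range α)) Fz) (fun i => ⟨α i, hmem i⟩) n
    rw [overRing_map, pt_Fz] at h3
    have h4 := congrFun h3 i
    exact h4.symm

end Pool.Agent.Results.MP_e9abfe_ag.TwoAdicIntegral
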